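import Pool.Agent.Q189.TB6

/-!
# The maximum running time of tree bootstrap percolation is superlinear

The definitions are in `Pool.Agent.Q189.TB1`:
* `TB.nextGraph H G`: one round of the `H`-process, all pairs `ab` with
  `n_H(G + ab) > n_H(G)` are added, where `n_H` is Mathlib's `SimpleGraph.copyCount`, the number of
  subgraphs isomorphic to `H`;
* `TB.process H G i`: the graph `G_i`; `TB.runTime H G`: the least `s` with `G_s = G_{s+1}`;
* `TB.maxTime H n`: the maximum running time over all graphs on `n` vertices;
* `TB.Mstar t`: the maximum over all trees `T` on `t` vertices of `limsup_n M_T(n)`.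

We show that `M^*(t) = t - 1` fails for all `t ≥ 10⁹`, and that `M^*(t) ≥ r t` for all
`t ≥ 10⁹ r⁴`; so `M^*(t)` is at least a constant times `t^(5/4)`.

Idea: let the `k` vertices of a set `B` be joined to all other vertices, and let `T` have a vertex
cover `S` of size `k` such that each vertex of `S` has three leaves outside `S`. Then the copies of
`T` map `S` onto `B`, and the process is the spanning process of the forest `T[S]` inside `B`.
Leaves inside `B` serve as colours of the other vertices of `B`. In the coloured process
an infection runs along `r²` paths of length `2m + 1`, one after the other, through `2 r m` vertices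
only: the vertices are divided into `2r` classes, and each pair of a left and a right class carries
its own path.
-/

set_option autoImplicit false

namespace Pool.Agent.Results.MP_88887c_co.SuperlinearTime

/-- **`M^*(t)` is not `t - 1`; it grows at least like `t^(5/4)`.** -/
theorem result :
    (¬ ∀ t : ℕ, 1 ≤ t → TB.Mstar t = ((t - 1 : ℕ) : ℕ∞)) ∧
    ∀ r t : ℕ, 10 ^ 9 * r ^ 4 ≤ t → ((r * t : ℕ) : ℕ∞) ≤ TB.Mstar t := by
  refine ⟨fun h => ?_, fun r t ht => TB.Mstar_ge r t ht⟩
  have h1 := TB.Mstar_ge 1 (10 ^ 9) (by norm_num)
  rw [h (10 ^ 9) (by norm_num)] at h1
  norm_num at h1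

end Pool.Agent.Results.MP_88887c_co.SuperlinearTime
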